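import Pool.Agent.N279.AAK.Final

/-!
MP_0d9f0f_an, Q1: the answer is negative. For all `N`, `M` with `0 < dim N ≤ dim M < ∞` there is a
function `χ` in `B_a(M,N) ∩ B⁰_Sz(M,N)` for which condition (4) fails.
-/

open MeasureTheory Filter Topology
open Pool.Agent.Helper630.Szego Pool.Agent.N279.AAK

namespace Pool.Agent.Results.MP_0d9f0f_an.CondFourFails

/-- For all complex Hilbert spaces `N`, `M` with `0 < dim N ≤ dim M < ∞` there are a function
`χ ∈ B_a(M,N) ∩ B⁰_Sz(M,N)`, with its attached objects (boundary function `X`, outer factors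
`A = P_+⁻¹` and `B = (P_-⁻¹)*`, Hankel operator `Γ` of the symbol `f₀`), and a point `z` of the unit
disc at which `P_+(z, ρ)⁻¹ q_+(z, ρ)` does not converge to `χ(z)` as `ρ → 1⁻`. -/
theorem result (N M : Type*) [NormedAddCommGroup N] [InnerProductSpace ℂ N] [CompleteSpace N]
    [FiniteDimensional ℂ N] [NormedAddCommGroup M] [InnerProductSpace ℂ M] [CompleteSpace M]
    [FiniteDimensional ℂ M] (hN : 0 < Module.finrank ℂ N)
    (hNM : Module.finrank ℂ N ≤ Module.finrank ℂ M) :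
    ∃ χ : ℂ → M →L[ℂ] N, InBa χ ∧ InBSz χ ∧
      ∃ (X : TT → M →L[ℂ] N) (A : ℂ → N →L[ℂ] N) (Y : TT → N →L[ℂ] N) (B : ℂ → M →L[ℂ] M)
        (Z : TT → M →L[ℂ] M) (Γ : ell2 N →L[ℂ] ell2 M), IsData χ X A Y B Z Γ ∧
        ∃ z ∈ Metric.ball (0 : ℂ) 1,
          ¬ Tendsto (fun ρ : ℝ => (Ring.inverse (Pplus Γ ρ z)).comp (qplus Γ ρ z))
            (𝓝[<] 1) (𝓝 (χ z)) :=
  Pool.Agent.N279.AAK.main N M hN hNM

end Pool.Agent.Results.MP_0d9f0f_an.CondFourFails
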